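import Pool.Agent.H3.MX.Defs
import Pool.Agent.H67.RG.SndG

/-!
# FG, MIX (L): all lines (proof of the frame H3/MX/Lin)
-/

set_option autoImplicit false
set_option linter.unusedSectionVars false

namespace Pool.Agent.H87.MX

open Finset
open Pool.Agent.H3.Frg hiding ind
open Pool.Agent.H67.FG (ind Alg Fo tr orAll orF IsRef Few DegOK guess_exists self_mem_subs)
open Pool.Agent.H67.RG (Ev df df_apply fm_subs_length mem_subs_inst)

/-- a formula without gates does not see the guesses -/
theorem tr_free {V : Type} (g g' : Fo V → Bool) (A : Fo V) (h : A.gates = ∅) : tr g A = tr g' A := by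
  have h0 : ∀ B ∈ A.subs, ¬ B.IsMod := by
    intro B hB hm
    have h1 : B ∈ A.gates := ⟨hB, hm⟩
    rw [h] at h1
    exact h1
  clear h
  induction A with
  | var v => rfl
  | neg A ih =>
    have h1 := ih fun B hB => h0 B (by rw [Fo.subs]; exact List.mem_cons_of_mem _ hB)
    show Fm.neg (tr g A) = Fm.neg (tr g' A)
    rw [h1]
  | imp A B ihA ihB =>
    have h1 := ihA fun C hC => h0 C (by rw [Fo.subs]; exact List.mem_cons_of_mem _ (List.mem_append_left _ hC))
    have h2 := ihB fun C hC => h0 C (by rw [Fo.subs]; exact List.mem_cons_of_mem _ (List.mem_append_right _ hC))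
    show Fm.imp (tr g A) (tr g B) = Fm.imp (tr g' A) (tr g' B)
    rw [h1, h2]
  | mod a n f _ => exact absurd ⟨a, n, f, rfl⟩ (h0 _ (self_mem_subs _))

variable {p k : ℕ} {V Y F : Type} [Field F] {𝓐 : Alg F Y} {D1 : ℕ} {r : Y → Fm (V ⊕ Bool) → Option Bool}
    {g : Y → Fo V → Bool} {Hyp L : Set (Fo V)}

/-- one step of modus ponens -/
theorem mp_step (E : Ev p k 𝓐 D1 r g Hyp L) {A B : Fo V} (hA : A ∈ L) (hB : B ∈ L)
    (hAB : Fo.imp A B ∈ L) (h1 : df g A ∈ 𝓐.Z) (h2 : df g (Fo.imp A B) ∈ 𝓐.Z) : df g B ∈ 𝓐.Z := by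
  have hD := E.df_deg hB (self_mem_subs B)
  have hK := E.K
  have hjD := E.df_deg hA (self_mem_subs _)
  have hlD := E.df_deg hAB (self_mem_subs _)
  have hjT := E.deg _ hA _ (self_mem_subs A)
  have hlT := E.deg _ hAB _ (self_mem_subs _)
  have hcj : A ∈ (Fo.imp A B).subs := by
    rw [Fo.subs]
    exact List.mem_cons_of_mem _ (List.mem_append_left _ (self_mem_subs _))
  have hci : B ∈ (Fo.imp A B).subs := by
    rw [Fo.subs]
    exact List.mem_cons_of_mem _ (List.mem_append_right _ (self_mem_subs _))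
  have a1 : df g B * df g A ∈ 𝓐.Z := 𝓐.zmul (by nlinarith) hD hjD h1
  have a2 : (df g B * ind (fun y => g y A = true)) * df g (Fo.imp A B) ∈ 𝓐.Z :=
    𝓐.zmul (by nlinarith) (𝓐.mul hD hjT) hlD h2
  have a3 : (df g B * ind (fun y => g y A = true)) * ind (fun y => g y (Fo.imp A B) = true) ∈ 𝓐.Z := by
    refine E.zl hAB [.imp A B, A, B] ?_ (D1 + D1 + D1) _ (𝓐.mul (𝓐.mul hD hjT) hlT) ?_ ?_
    · intro C hC
      simp only [List.mem_cons, List.not_mem_nil, or_false] at hC
      rcases hC with rfl | rfl | rfl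
      · exact self_mem_subs _
      · exact hcj
      · exact hci
    · have : ([Fo.imp A B, A, B] : List (Fo V)).length = 3 := rfl
      rw [this]
      nlinarith
    · intro y hy
      have e1 := hy (.imp A B) (by simp)
      have e2 := hy A (by simp)
      have e3 := hy B (by simp)
      have f1 := E.gimp hAB (self_mem_subs _) e2 e3 e1
      by_cases hi' : g y B = true
      · show (df g B : Y → F) y * _ * _ = 0
        rw [df_apply g _ y hi', zero_mul, zero_mul]
      · rw [Bool.not_eq_true] at hi'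
        by_cases hj' : g y A = true
        · have : ¬ g y (Fo.imp A B) = true := by
            rw [f1, hi', hj']
            simp
          simp [ind, this]
        · simp [ind, hj']
  have e : (df g B : Y → F) = df g B * df g A +
      ((df g B * ind (fun y => g y A = true)) * df g (Fo.imp A B) +
      (df g B * ind (fun y => g y A = true)) * ind (fun y => g y (Fo.imp A B) = true)) := by
    simp only [df]
    ring
  rw [e]
  exact 𝓐.Z.add_mem a1 (𝓐.Z.add_mem a2 a3)

/-- hypotheses -/
theorem hyp_step (E : Ev p k 𝓐 D1 r g Hyp L) {A : Fo V} (hA : A ∈ L) (hH : A ∈ Hyp) :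
    df g A ∈ 𝓐.Z := by
  have hD := E.df_deg hA (self_mem_subs A)
  have hK := E.K
  obtain ⟨l, hl1, hl2, hl3⟩ := E.hyp _ hA hH
  refine E.zl hA l hl1 D1 _ hD ?_ ?_
  · have : l.length * D1 ≤ 5 * D1 := Nat.mul_le_mul_right _ hl2
    nlinarith
  · intro y hy
    exact df_apply _ _ _ (hl3 y hy)

/-- schemes -/
theorem ax_step (E : Ev p k 𝓐 D1 r g Hyp L) (ψ : Fm ℕ) (σ : ℕ → Fo V)
    (h1 : ψ.len ≤ k) (h2 : ∀ v : Fo V → Bool, Pool.Agent.H67.FG.Resp p v → ψ.eval (fun n => v (σ n)) = true)
    (hA : Pool.Agent.H67.FG.inst σ ψ ∈ L) : df g (Pool.Agent.H67.FG.inst σ ψ) ∈ 𝓐.Z := by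
  have hself := self_mem_subs (Pool.Agent.H67.FG.inst σ ψ)
  have hD := E.df_deg hA hself
  have hK := E.K
  refine E.zl hA (ψ.subs.map (Pool.Agent.H67.FG.inst σ)) ?_ D1 _ hD ?_ ?_
  · intro B hB
    obtain ⟨χ, hχ, rfl⟩ := List.mem_map.1 hB
    exact mem_subs_inst _ σ ψ hself χ hχ
  · rw [List.length_map, fm_subs_length]
    have : ψ.len * D1 ≤ k * D1 := Nat.mul_le_mul_right _ h1
    nlinarith
  · intro y hy
    apply df_apply
    rw [E.geval hA σ y ψ hself fun χ hχ => hy _ (List.mem_map.2 ⟨χ, hχ, rfl⟩)]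
    exact h2 (g y) (E.resp y)

/-- the last line -/
theorem last_step (E : Ev p k 𝓐 D1 r g Hyp L) {A : Fo V}
    (hA : Fo.neg (.imp A A) ∈ L) (h : df g (Fo.neg (.imp A A)) ∈ 𝓐.Z) : False := by
  have hK := E.K
  have hT := E.deg _ hA _ (self_mem_subs _)
  have h3 : ind (fun y => g y (.neg (.imp A A)) = true) ∈ 𝓐.Z := by
    refine E.zl hA [.neg (.imp A A), .imp A A, A] ?_ D1 _ hT ?_ ?_
    · intro B hB
      simp only [List.mem_cons, List.not_mem_nil, or_false] at hB
      rcases hB with rfl | rfl | rfl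
      · exact self_mem_subs _
      · simp [Fo.subs]
      · rw [Fo.subs, Fo.subs]
        exact List.mem_cons_of_mem _ (List.mem_cons_of_mem _ (List.mem_append_left _ (self_mem_subs _)))
    · have : ([Fo.neg (.imp A A), .imp A A, A] : List (Fo V)).length = 3 := rfl
      rw [this]
      nlinarith
    · intro y hy
      have e1 := hy (.neg (.imp A A)) (by simp)
      have e2 := hy (.imp A A) (by simp)
      have e3 := hy A (by simp)
      have f1 := E.gneg hA (B := .imp A A) (self_mem_subs _) e2 e1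
      have f2 := E.gimp hA (B := A) (C := A) (by simp [Fo.subs]) e3 e3 e2
      have : ¬ g y (.neg (.imp A A)) = true := by
        rw [f1, f2]
        cases g y A <;> simp
      simp [ind, this]
  have h4 : (1 : Y → F) = df g (.neg (.imp A A)) + ind (fun y => g y (.neg (.imp A A)) = true) := by
    simp [df]
  exact 𝓐.ne (h4 ▸ 𝓐.Z.add_mem h h3)

end Pool.Agent.H87.MX
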